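import Pool.Agent.Y43.DP.Pts

/-! The invariant vector field on an elliptic function field: DP-DEL. -/

set_option autoImplicit false
set_option linter.unusedSectionVars false

namespace Pool.Agent.Y43.DP

open Pool.Agent.Y166.DP FF Pool.Agent.W603.LV IntermediateField

section
variable {k K : Type} [Field k] [Field K] [Algebra k K] [CharZero k] [IsAlgClosed k] [IsFF k K]
  {lam : k} {x y : K}

theorem der_y (h : Ell k K lam x y) (δ : Derivation k K K) (hx : δ x = 2 * y) :
    δ y = cub' lam x := by
  have hchar : CharZero K := charZero_of_injective_algebraMap (algebraMap k K).injective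
  have hy := ell_y_ne h
  have h1 : δ (y ^ 2) = δ (x * (x - 1) * (x - algebraMap k K lam)) := by rw [h.eqn]
  rw [pow_two] at h1
  simp only [Derivation.leibniz, map_sub, Derivation.map_one_eq_zero, Derivation.map_algebraMap,
    smul_eq_mul, sub_zero, hx] at h1
  have h2 : (2 * y) * (δ y - cub' lam x) = 0 := by
    unfold cub'
    linear_combination h1
  rcases mul_eq_zero.1 h2 with h3 | h3
  · exact absurd ((mul_eq_zero.1 h3).resolve_left two_ne_zero) hy
  · exact sub_eq_zero.1 h3

theorem cub'_val (h : Ell k K lam x y) {P : Place k K} {a : k}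
    (ha : a * (a - 1) * (a - lam) = 0) (hx : Ge P 1 (x - algebraMap k K a)) :
    P.ord (cub' lam x) = 0 := by
  have h1 : Ge P 1 (cub' lam x - algebraMap k K (3 * a ^ 2 - 2 * (1 + lam) * a + lam)) := by
    have e : cub' lam x = algebraMap k K 3 * (x * x) - algebraMap k K (2 * (1 + lam)) * x +
        algebraMap k K lam := by
      unfold cub'
      simp only [map_mul, map_add, map_one, map_ofNat]
      ring
    rw [e]
    have h2 := val_add (val_sub (val_mul (val_const (P := P) (K := K) (3 : k)) (val_mul hx hx))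
      (val_mul (val_const (P := P) (K := K) (2 * (1 + lam))) hx)) (val_const (P := P) (K := K) lam)
    have e2 : (3 : k) * (a * a) - 2 * (1 + lam) * a + lam = 3 * a ^ 2 - 2 * (1 + lam) * a + lam := by
      ring
    rwa [e2] at h2
  refine (unit_of ?_ h1).2
  have hl0 := h.lam0
  have hl1 := h.lam1
  rcases mul_eq_zero.1 ha with h3 | h3
  · rcases mul_eq_zero.1 h3 with h4 | h4
    · subst h4
      simpa using hl0
    · have h5 := sub_eq_zero.1 h4
      subst h5
      have e : (3 : k) * 1 ^ 2 - 2 * (1 + lam) * 1 + lam = 1 - lam := by ring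
      rw [e]
      exact sub_ne_zero.2 hl1.symm
  · have h5 := sub_eq_zero.1 h3
    subst h5
    have e : (3 : k) * a ^ 2 - 2 * (1 + a) * a + a = a * (a - 1) := by ring
    rw [e]
    exact mul_ne_zero hl0 (sub_ne_zero.2 hl1)

end

theorem stmDel : StmInf → StmPts → StmDel := by
  intro hInf hPts k K _ _ _ _ _ _ lam x y h
  have hchar : CharZero K := charZero_of_injective_algebraMap (algebraMap k K).injective
  obtain ⟨o, ho, hoy, hreg⟩ := hInf k K lam x y h
  obtain ⟨hp1, -, hp3⟩ := hPts k K lam x y h
  obtain ⟨D, hD⟩ := exists_der (k := k) (K := K)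
  have hDx := der_ne_zero hD h.tr
  have hy := ell_y_ne h
  have hx0 : x ≠ 0 := by simpa using x_sub_ne h (0 : k)
  set δ : Derivation k K K := (2 * y / D x) • D with hδ
  have hδx : δ x = 2 * y := by
    rw [hδ, Derivation.coe_smul, Pi.smul_apply, smul_eq_mul, div_mul_cancel₀ _ hDx]
  have hδy := der_y h δ hδx
  have hδ0 : δ ≠ 0 := by
    intro h0
    rw [h0, Derivation.coe_zero, Pi.zero_apply] at hδx
    exact mul_ne_zero two_ne_zero hy hδx.symm
  have h2 : ∀ P : Place k K, P.ord (2 : K) = 0 := by
    intro P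
    have := P.ord_const (c := (2 : k)) two_ne_zero
    rwa [map_ofNat] at this
  refine ⟨δ, hδx, hδy, hδ0, fun P => ?_⟩
  by_cases hP : Ge P 0 x
  · obtain ⟨a, b, hab, hxa, hyb⟩ := hp1 P hP
    obtain ⟨-, q1, q2⟩ := hp3 a b P hxa hyb
    by_cases hb : b = 0
    · obtain ⟨r1, r2⟩ := q2 hb
      rw [← vo_eq P r1 hδ0, hδy]
      exact cub'_val h (by rw [← hab, hb]; ring) hxa
    · rw [← vo_eq P (q1 hb) hδ0, map_sub, Derivation.map_algebraMap, sub_zero, hδx,
        P.ord_mul two_ne_zero hy, h2, (unit_of hb hyb).2, zero_add]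
  · have hPo : P = o := by
      by_contra hne
      exact hP (hreg P hne).1
    subst hPo
    have hπ : P.ord (x / y) = 1 := by
      rw [P.ord_div hx0 hy, ho, hoy]
      norm_num
    have hx2 : P.ord (x ^ 2) = -4 := by
      rw [P.ord_pow, ho]
      norm_num
    obtain ⟨s1, s2⟩ := ord_sub_const P (x := x ^ 2) (by omega) lam
    have e : δ (x / y) = -(x * (x ^ 2 - algebraMap k K lam)) / y ^ 2 := by
      rw [Derivation.leibniz_div, hδx, hδy, smul_eq_mul, smul_eq_mul, smul_eq_mul, inv_pow,
        inv_mul_eq_div]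
      congr 1
      have h3 := h.eqn
      unfold cub'
      linear_combination 2 * h3
    rw [← vo_eq P hπ hδ0, e, P.ord_div (neg_ne_zero.2 (mul_ne_zero hx0 s1)) (pow_ne_zero 2 hy),
      P.ord_neg, P.ord_mul hx0 s1, s2, hx2, P.ord_pow, ho, hoy]
    norm_num

end Pool.Agent.Y43.DP
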