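import Pool.Agent.Y166.DP.Stm

/-! The function field of an elliptic curve is a function field of one variable: DP-FF. -/

set_option autoImplicit false
set_option linter.unusedSectionVars false

namespace Pool.Agent.Y43.DP

open Pool.Agent.Y166.DP FF Pool.Agent.W603.LV IntermediateField Polynomial

section
variable {k K : Type} [Field k] [Field K] [Algebra k K] {lam : k} {x y : K}

theorem adjoin_y (h : Ell k K lam x y) : IntermediateField.adjoin k⟮x⟯ {y} = ⊤ := by
  have h1 : (IntermediateField.adjoin k⟮x⟯ {y}).restrictScalars k = ⊤ := by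
    rw [IntermediateField.adjoin_adjoin_left, Set.singleton_union, h.gen]
  rw [eq_top_iff]
  intro z _
  have h2 : z ∈ (IntermediateField.adjoin k⟮x⟯ {y}).restrictScalars k := by
    rw [h1]; trivial
  exact h2

/-- the element `x` of the field `k⟮x⟯` -/
noncomputable def xg (k : Type) {K : Type} [Field k] [Field K] [Algebra k K] (x : K) : k⟮x⟯ :=
  ⟨x, IntermediateField.mem_adjoin_simple_self k x⟩

/-- the polynomial `Y ^ 2 - x (x - 1) (x - lam)` -/
noncomputable def pol (lam : k) (x : K) : (k⟮x⟯)[X] :=
  X ^ 2 - C (xg k x * (xg k x - 1) * (xg k x - algebraMap k k⟮x⟯ lam))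

theorem pol_monic : (pol lam x).Monic := monic_X_pow_sub_C _ two_ne_zero

theorem pol_natDegree : (pol lam x).natDegree = 2 := natDegree_X_pow_sub_C

theorem pol_aeval (h : Ell k K lam x y) : aeval y (pol lam x) = 0 := by
  have e1 : algebraMap k⟮x⟯ K (xg k x) = x := rfl
  unfold pol
  rw [map_sub, map_pow, aeval_X, aeval_C, map_mul, map_mul, map_sub, map_sub, e1, map_one,
    ← IsScalarTower.algebraMap_apply k k⟮x⟯ K, h.eqn, sub_self]

theorem y_int (h : Ell k K lam x y) : IsIntegral k⟮x⟯ y := ⟨pol lam x, pol_monic, pol_aeval h⟩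

theorem fin_K (h : Ell k K lam x y) : FiniteDimensional k⟮x⟯ K := by
  have h5 : FiniteDimensional k⟮x⟯ (IntermediateField.adjoin k⟮x⟯ {y}) :=
    IntermediateField.adjoin.finiteDimensional (y_int h)
  rw [adjoin_y h] at h5
  exact IntermediateField.topEquiv.toLinearEquiv.finiteDimensional

theorem finrank_le (h : Ell k K lam x y) : Module.finrank k⟮x⟯ K ≤ 2 := by
  have h1 : Module.finrank k⟮x⟯ (IntermediateField.adjoin k⟮x⟯ {y}) =
      (minpoly k⟮x⟯ y).natDegree := IntermediateField.adjoin.finrank (y_int h)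
  rw [adjoin_y h, IntermediateField.finrank_top'] at h1
  rw [h1, ← pol_natDegree (lam := lam) (x := x)]
  exact natDegree_le_natDegree (minpoly.min _ _ pol_monic (pol_aeval h))

end

theorem stmFF : StmFF := by
  intro k K _ _ _ _ lam x y h
  exact IsFF.of_finite h.tr (fin_K h)

end Pool.Agent.Y43.DP
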