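import Pool.Agent.Y43.DP.FF

/-! The point at infinity of an elliptic function field: DP-INF. -/

set_option autoImplicit false
set_option linter.unusedSectionVars false

namespace Pool.Agent.Y43.DP

open Pool.Agent.Y166.DP FF Pool.Agent.W603.LV IntermediateField

section
variable {k K : Type} [Field k] [Field K] [Algebra k K] {lam : k} {x y : K}

theorem ord_sub_const (P : Place k K) (hx : P.ord x < 0) (c : k) :
    x - algebraMap k K c ≠ 0 ∧ P.ord (x - algebraMap k K c) = P.ord x := by
  have hx0 : x ≠ 0 := by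
    intro h
    rw [h, P.ord_zero] at hx
    exact lt_irrefl _ hx
  by_cases hc : c = 0
  · rw [hc, map_zero, sub_zero]
    exact ⟨hx0, rfl⟩
  · have h1 : P.ord (-algebraMap k K c) = 0 := by rw [P.ord_neg, P.ord_const hc]
    have h2 := P.ord_add_eq (f := x) (g := -algebraMap k K c) hx0
      (neg_ne_zero.2 ((map_ne_zero _).2 hc)) (by rw [h1]; exact hx)
    rwa [← sub_eq_add_neg] at h2

theorem ell_y_ne (h : Ell k K lam x y) : y ≠ 0 := by
  intro hy
  have h1 := h.eqn
  rw [hy] at h1
  have h0 : x * (x - 1) * (x - algebraMap k K lam) = 0 := by rw [← h1]; ring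
  have htr := h.tr
  rcases mul_eq_zero.1 h0 with h2 | h2
  · rcases mul_eq_zero.1 h2 with h3 | h3
    · rw [h3] at htr
      exact htr (isAlgebraic_zero)
    · rw [sub_eq_zero.1 h3] at htr
      exact htr (isAlgebraic_one)
  · rw [sub_eq_zero.1 h2] at htr
    exact htr (isAlgebraic_algebraMap lam)

/-- the orders of `x` and `y` at a pole of `x` -/
theorem ord_pole (h : Ell k K lam x y) (P : Place k K) (hx : P.ord x < 0) :
    2 * P.ord y = 3 * P.ord x := by
  have hx0 : x ≠ 0 := by
    intro h
    rw [h, P.ord_zero] at hx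
    exact lt_irrefl _ hx
  obtain ⟨a1, a2⟩ := ord_sub_const P hx (1 : k)
  obtain ⟨b1, b2⟩ := ord_sub_const P hx lam
  rw [map_one] at a1 a2
  have h1 : P.ord (y ^ 2) = P.ord (x * (x - 1) * (x - algebraMap k K lam)) := by rw [h.eqn]
  rw [P.ord_pow, P.ord_mul (mul_ne_zero hx0 a1) b1, P.ord_mul hx0 a1, a2, b2] at h1
  push_cast at h1
  linarith

theorem ge_y (h : Ell k K lam x y) (P : Place k K) (hx : Ge P 0 x) : Ge P 0 y := by
  have h1 : Ge P 0 (y ^ 2) := by
    rw [h.eqn]
    have h2 := (hx.mul (hx.sub Ge.one)).mul (hx.sub (Ge.const (P := P) lam))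
    simpa using h2
  rcases h1 with h1 | h1
  · exact Or.inl (by simpa using h1)
  · rw [P.ord_pow] at h1
    right
    push_cast at h1
    linarith

end

theorem stmInf : StmInf := by
  classical
  intro k K _ _ _ _ _ _ lam x y h
  have hr := finrank_le h
  obtain ⟨S, hS, hsum⟩ := poles (k := k) (K := K) h.tr
  have hs2 : ∑ w ∈ S, (-w.ord x).toNat = Module.finrank k⟮x⟯ K := by
    rw [← hsum]
    exact Finset.sum_congr rfl fun w _ => by rw [deg_one, mul_one]
  haveI := IsFF.finite (k := k) (K := K) h.tr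
  have hpos : 0 < Module.finrank k⟮x⟯ K := Module.finrank_pos
  have hw : ∀ w ∈ S, 2 ≤ (-w.ord x).toNat ∧ w.ord x ≤ -2 := by
    intro w hw
    have h1 := (hS w).1 hw
    have h2 := ord_pole h w h1
    omega
  have hne : S.Nonempty := by
    rw [Finset.nonempty_iff_ne_empty]
    intro he
    rw [he, Finset.sum_empty] at hs2
    omega
  obtain ⟨o, ho⟩ := hne
  have hsplit := Finset.sum_erase_add S (fun w : Place k K => (-w.ord x).toNat) ho
  have ho2 := hw o ho
  have hle : (-o.ord x).toNat ≤ 2 := by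
    have : (-o.ord x).toNat ≤ ∑ w ∈ S, (-w.ord x).toNat :=
      Finset.single_le_sum (f := fun w : Place k K => (-w.ord x).toNat) (fun _ _ => Nat.zero_le _) ho
    omega
  have hox : o.ord x = -2 := by omega
  have hoy := ord_pole h o (by omega)
  refine ⟨o, hox, by omega, ?_⟩
  intro P hP
  have hx : Ge P 0 x := by
    by_contra hc
    have hlt : P.ord x < 0 := by
      by_contra hc2
      exact hc (Or.inr (by omega))
    have hPS := (hS P).2 hlt
    have hPe : P ∈ S.erase o := Finset.mem_erase.2 ⟨hP, hPS⟩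
    have h3 : (-P.ord x).toNat ≤ ∑ w ∈ S.erase o, (-w.ord x).toNat :=
      Finset.single_le_sum (f := fun w : Place k K => (-w.ord x).toNat)
        (fun _ _ => Nat.zero_le _) hPe
    have h4 := hw P hPS
    omega
  exact ⟨hx, ge_y h P hx⟩

end Pool.Agent.Y43.DP
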