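import Pool.Agent.Y43.DP.Del

/-! The divisor of the function `phi`: DP-PHI. -/

set_option autoImplicit false
set_option linter.unusedSectionVars false

namespace Pool.Agent.Y43.DP

open Pool.Agent.Y166.DP FF Pool.Agent.W603.LV IntermediateField

theorem ord_add_ge {k K : Type} [Field k] [Field K] [Algebra k K] (P : Place k K) {f g : K}
    {N : ℤ} (hf : f ≠ 0) (hg : Ge P N g) (h : P.ord f < N) :
    f + g ≠ 0 ∧ P.ord (f + g) = P.ord f := by
  by_cases h0 : g = 0
  · rw [h0, add_zero]
    exact ⟨hf, rfl⟩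
  · exact P.ord_add_eq hf h0 (lt_of_lt_of_le h (hg.resolve_left h0))

theorem phi_id {K : Type} [CommRing K] (A B C x : K) :
    x * (x - (A ^ 2 - B ^ 2)) * (x - (A ^ 2 - C ^ 2)) =
      ((A + B + C) * (x - A ^ 2) - A * B * C) ^ 2 +
        (x - A ^ 2) * (x - (A + B) * (A + C)) ^ 2 := by
  ring

theorem pxy_eqn {k : Type} [Field k] {α β γ lam : k} (hβ : β ^ 2 = α ^ 2 - 1)
    (hγ : γ ^ 2 = α ^ 2 - lam) :
    py α β γ ^ 2 = px α β γ * (px α β γ - 1) * (px α β γ - lam) := by
  have h1 : (1 : k) = α ^ 2 - β ^ 2 := by rw [hβ]; ring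
  have h2 : lam = α ^ 2 - γ ^ 2 := by rw [hγ]; ring
  have e : px α β γ * (px α β γ - 1) * (px α β γ - lam) =
      px α β γ * (px α β γ - (α ^ 2 - β ^ 2)) * (px α β γ - (α ^ 2 - γ ^ 2)) := by
    rw [← h1, ← h2]
  rw [e]
  unfold px py
  ring

theorem py_ne {k : Type} [Field k] {α β γ lam : k} (hl0 : lam ≠ 0) (hl1 : lam ≠ 1)
    (hβ : β ^ 2 = α ^ 2 - 1) (hγ : γ ^ 2 = α ^ 2 - lam) : py α β γ ≠ 0 := by
  unfold py
  have h1 : (α + β) * (α - β) = 1 := by linear_combination -hβ
  have h2 : (α + γ) * (α - γ) = lam := by linear_combination -hγ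
  have h3 : (β + γ) * (β - γ) = lam - 1 := by linear_combination hβ - hγ
  have g1 : α + β ≠ 0 := by
    intro h; rw [h, zero_mul] at h1; exact zero_ne_one h1
  have g2 : α + γ ≠ 0 := by
    intro h; rw [h, zero_mul] at h2; exact hl0 h2.symm
  have g3 : β + γ ≠ 0 := by
    intro h; rw [h, zero_mul] at h3; exact hl1 (sub_eq_zero.1 h3.symm)
  exact mul_ne_zero (mul_ne_zero g1 g2) g3

theorem stmPhi : StmInf → StmPts → StmPhi := by
  intro hInf hPts k K _ _ _ _ _ _ lam x y h o ho α β γ hβ hγ hne hne2
  have hchar : CharZero K := charZero_of_injective_algebraMap (algebraMap k K).injective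
  obtain ⟨o', ho', hoy', hreg⟩ := hInf k K lam x y h
  obtain ⟨hp1, hp2, hp3⟩ := hPts k K lam x y h
  have hx0 : x ≠ 0 := by simpa using x_sub_ne h (0 : k)
  have hoo : o = o' := by
    by_contra hc
    have := (hreg o hc).1.resolve_left hx0
    omega
  subst hoo
  have hpy := py_ne h.lam0 h.lam1 hβ hγ
  have hpx : px α β γ - α ^ 2 ≠ 0 := by
    unfold px
    intro h0
    apply hne2
    linear_combination h0
  have hab : (α * β * γ) ^ 2 = α ^ 2 * (α ^ 2 - 1) * (α ^ 2 - lam) := by
    rw [← hβ, ← hγ]; ring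
  have hab' := pxy_eqn hβ hγ
  obtain ⟨p, hpx1, hpy1⟩ := hp2 _ _ hab
  obtain ⟨p', hpx2, hpy2⟩ := hp2 _ _ hab'
  obtain ⟨pu, po, -⟩ := hp3 _ _ p hpx1 hpy1
  obtain ⟨pu', po', -⟩ := hp3 _ _ p' hpx2 hpy2
  have hno : ∀ P : Place k K, Ge P 0 x → P ≠ o := by
    rintro P hP rfl
    have := hP.resolve_left hx0
    omega
  have hpp : p ≠ p' := by
    rintro rfl
    exact hpx (by rw [val_unique hpx2 hpx1, sub_self])
  -- the function `l`
  set l : K := y + algebraMap k K (α * β * γ) -
    algebraMap k K (α + β + γ) * (x - algebraMap k K (α ^ 2)) with hl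
  set l' : K := y - algebraMap k K (α * β * γ) +
    algebraMap k K (α + β + γ) * (x - algebraMap k K (α ^ 2)) with hl'
  have hphi : phi x y α β γ = l / (x - algebraMap k K (α ^ 2)) := rfl
  have hx1 := x_sub_ne h (α ^ 2)
  have hx2 := x_sub_ne h (px α β γ)
  have hll : l * l' = (x - algebraMap k K (α ^ 2)) * (x - algebraMap k K (px α β γ)) ^ 2 := by
    have h1 : (1 : K) = algebraMap k K α ^ 2 - algebraMap k K β ^ 2 := by
      rw [← map_pow, ← map_pow, hβ, map_sub, map_one]; ring
    have h2 : algebraMap k K lam = algebraMap k K α ^ 2 - algebraMap k K γ ^ 2 := by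
      rw [← map_pow, ← map_pow, hγ, map_sub]; ring
    have h3 : y ^ 2 = x * (x - (algebraMap k K α ^ 2 - algebraMap k K β ^ 2)) *
        (x - (algebraMap k K α ^ 2 - algebraMap k K γ ^ 2)) := by
      rw [← h1, ← h2]; exact h.eqn
    rw [phi_id] at h3
    rw [hl, hl']
    unfold px
    simp only [map_mul, map_add, map_pow]
    linear_combination h3
  have hl0 : l ≠ 0 := by
    intro h0
    rw [h0, zero_mul] at hll
    exact mul_ne_zero hx1 (pow_ne_zero 2 hx2) hll.symm
  have hl0' : l' ≠ 0 := by
    intro h0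
    rw [h0, mul_zero] at hll
    exact mul_ne_zero hx1 (pow_ne_zero 2 hx2) hll.symm
  have hord : ∀ P : Place k K, P.ord l + P.ord l' =
      P.ord (x - algebraMap k K (α ^ 2)) + 2 * P.ord (x - algebraMap k K (px α β γ)) := by
    intro P
    have e : P.ord (l * l') = P.ord ((x - algebraMap k K (α ^ 2)) *
      (x - algebraMap k K (px α β γ)) ^ 2) := by rw [hll]
    rw [P.ord_mul hl0 hl0', P.ord_mul hx1 (pow_ne_zero 2 hx2), P.ord_pow] at e
    exact e
  -- the values of `l` and `l'`
  have lval : ∀ (P : Place k K) (a b : k), Ge P 1 (x - algebraMap k K a) →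
      Ge P 1 (y - algebraMap k K b) →
      Ge P 1 (l - algebraMap k K (b + α * β * γ - (α + β + γ) * (a - α ^ 2))) := by
    intro P a b ha hb
    exact val_sub (val_add hb (val_const _)) (val_mul (val_const _) (val_sub ha (val_const _)))
  have lval' : ∀ (P : Place k K) (a b : k), Ge P 1 (x - algebraMap k K a) →
      Ge P 1 (y - algebraMap k K b) →
      Ge P 1 (l' - algebraMap k K (b - α * β * γ + (α + β + γ) * (a - α ^ 2))) := by
    intro P a b ha hb
    exact val_add (val_sub hb (val_const _)) (val_mul (val_const _) (val_sub ha (val_const _)))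
  have xval : ∀ (P : Place k K) (a c : k), Ge P 1 (x - algebraMap k K a) → a ≠ c →
      P.ord (x - algebraMap k K c) = 0 := fun P a c ha hac =>
    (unit_of (sub_ne_zero.2 hac) (val_sub ha (val_const c))).2
  have hpyid : py α β γ = (α + β + γ) * (px α β γ - α ^ 2) - α * β * γ := by
    unfold px py
    ring
  have hpxa : px α β γ ≠ α ^ 2 := sub_ne_zero.1 hpx
  have hdiv : ∀ P : Place k K, P.ord (phi x y α β γ) =
      P.ord l - P.ord (x - algebraMap k K (α ^ 2)) := by
    intro P
    rw [hphi, P.ord_div hl0 hx1]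
  refine ⟨p, p', hno p (ge_of_val hpx1), hno p' (ge_of_val hpx2), hpp, hpx1, hpy1, hpx2, hpy2,
    by rw [hphi]; exact div_ne_zero hl0 hx1, fun P => ⟨?_, ?_, ?_, ?_⟩⟩
  · intro hP
    subst hP
    have h1 := xval P _ (α ^ 2) hpx2 hpxa
    have h2 := po' hpy
    have h3 : P.ord l' = 0 := by
      refine (unit_of ?_ (lval' P _ _ hpx2 hpy2)).2
      have e : py α β γ - α * β * γ + (α + β + γ) * (px α β γ - α ^ 2) = 2 * py α β γ := by
        linear_combination -hpyid
      rw [e]
      exact mul_ne_zero two_ne_zero hpy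
    have h4 := hord P
    rw [hdiv]
    omega
  · intro hP
    subst hP
    have h2 := po hne
    have h3 : P.ord l = 0 := by
      refine (unit_of ?_ (lval P _ _ hpx1 hpy1)).2
      have e : α * β * γ + α * β * γ - (α + β + γ) * (α ^ 2 - α ^ 2) = 2 * (α * β * γ) := by ring
      rw [e]
      exact mul_ne_zero two_ne_zero hne
    rw [hdiv]
    omega
  · intro hP
    subst hP
    have h1 := (ord_sub_const P (x := x) (by omega) (α ^ 2)).2
    have hge : Ge P (-2) x := Or.inr (by omega)
    have h2 : Ge P (-2) (algebraMap k K (α * β * γ) -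
        algebraMap k K (α + β + γ) * (x - algebraMap k K (α ^ 2))) := by
      have h3 : Ge P (-2) (x - algebraMap k K (α ^ 2)) :=
        hge.sub ((Ge.const _).mono (by norm_num))
      have h4 := (Ge.const (P := P) (α + β + γ)).mul h3
      rw [zero_add] at h4
      exact ((Ge.const _).mono (by norm_num)).sub h4
    have h3 := (ord_add_ge P (ell_y_ne h) h2 (by omega)).2
    have e : y + (algebraMap k K (α * β * γ) -
        algebraMap k K (α + β + γ) * (x - algebraMap k K (α ^ 2))) = l := by
      rw [hl]; ring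
    rw [e] at h3
    rw [hdiv]
    omega
  · intro hP1 hP2 hP3
    obtain ⟨a, b, hab1, hxa, hyb⟩ := hp1 P (hreg P hP3).1
    by_cases ha : a = α ^ 2
    · subst ha
      have hbb : (b - α * β * γ) * (b + α * β * γ) = 0 := by linear_combination hab1 - hab
      rcases mul_eq_zero.1 hbb with h1 | h1
      · rw [sub_eq_zero.1 h1] at hyb
        exact absurd (pu P hxa hyb) hP2
      · have hb' : b = -(α * β * γ) := by linear_combination h1
        have h3 : P.ord l' = 0 := by
          refine (unit_of ?_ (lval' P _ _ hxa hyb)).2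
          have e : b - α * β * γ + (α + β + γ) * (α ^ 2 - α ^ 2) = -(2 * (α * β * γ)) := by
            rw [hb']; ring
          rw [e]
          exact neg_ne_zero.2 (mul_ne_zero two_ne_zero hne)
        have h4 := xval P _ (px α β γ) hxa hpxa.symm
        have h5 := hord P
        rw [hdiv]
        omega
    · have h6 := xval P _ (α ^ 2) hxa ha
      by_cases ha2 : a = px α β γ
      · subst ha2
        have hbb : (b - py α β γ) * (b + py α β γ) = 0 := by linear_combination hab1 - hab'
        rcases mul_eq_zero.1 hbb with h1 | h1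
        · rw [sub_eq_zero.1 h1] at hyb
          exact absurd (pu' P hxa hyb) hP1
        · have hb' : b = -(py α β γ) := by linear_combination h1
          have h3 : P.ord l = 0 := by
            refine (unit_of ?_ (lval P _ _ hxa hyb)).2
            have e : b + α * β * γ - (α + β + γ) * (px α β γ - α ^ 2) = -(2 * py α β γ) := by
              rw [hb']; linear_combination hpyid
            rw [e]
            exact neg_ne_zero.2 (mul_ne_zero two_ne_zero hpy)
          rw [hdiv]
          omega
      · have h4 := xval P _ (px α β γ) hxa ha2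
        have h5 := hord P
        have h7 : 0 ≤ P.ord l := (ge_of_val (lval P _ _ hxa hyb)).resolve_left hl0
        have h8 : 0 ≤ P.ord l' := (ge_of_val (lval' P _ _ hxa hyb)).resolve_left hl0'
        rw [hdiv]
        omega

end Pool.Agent.Y43.DP
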