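import Pool.Agent.Y43.DP.Inf

/-! The places and the points of an elliptic function field: DP-PTS. -/

set_option autoImplicit false
set_option linter.unusedSectionVars false

namespace Pool.Agent.Y43.DP

open Pool.Agent.Y166.DP FF Pool.Agent.W603.LV IntermediateField

section
variable {k K : Type} [Field k] [Field K] [Algebra k K] {P : Place k K} {lam : k} {x y : K}

theorem const_zero {c : k} (h : Ge P 1 (algebraMap k K c)) : c = 0 := by
  by_contra hc
  rcases h with h | h
  · exact hc ((map_eq_zero _).1 h)
  · rw [P.ord_const hc] at h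
    omega

theorem unit_of {f : K} {c : k} (hc : c ≠ 0) (h : Ge P 1 (f - algebraMap k K c)) :
    f ≠ 0 ∧ P.ord f = 0 := by
  have hc' : algebraMap k K c ≠ 0 := (map_ne_zero _).2 hc
  by_cases h0 : f - algebraMap k K c = 0
  · rw [sub_eq_zero.1 h0]
    exact ⟨hc', P.ord_const hc⟩
  · have h1 := h.resolve_left h0
    have h2 := P.ord_add_eq (f := algebraMap k K c) (g := f - algebraMap k K c) hc' h0
      (by rw [P.ord_const hc]; omega)
    rwa [add_sub_cancel, P.ord_const hc] at h2

/-- a function with a value is regular -/
theorem ge_of_val {f : K} {c : k} (h : Ge P 1 (f - algebraMap k K c)) : Ge P 0 f := by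
  have h1 := (h.mono (show (0 : ℤ) ≤ 1 by norm_num)).add (Ge.const (P := P) c)
  rwa [sub_add_cancel] at h1

theorem val_mul {f g : K} {c d : k} (hf : Ge P 1 (f - algebraMap k K c))
    (hg : Ge P 1 (g - algebraMap k K d)) : Ge P 1 (f * g - algebraMap k K (c * d)) := by
  have e : f * g - algebraMap k K (c * d) =
      (f - algebraMap k K c) * g + algebraMap k K c * (g - algebraMap k K d) := by
    rw [map_mul]; ring
  rw [e]
  exact ((hf.mul (ge_of_val hg)).mono (by norm_num)).add
    (((Ge.const c).mul hg).mono (by norm_num))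

theorem val_add {f g : K} {c d : k} (hf : Ge P 1 (f - algebraMap k K c))
    (hg : Ge P 1 (g - algebraMap k K d)) : Ge P 1 (f + g - algebraMap k K (c + d)) := by
  have e : f + g - algebraMap k K (c + d) =
      (f - algebraMap k K c) + (g - algebraMap k K d) := by
    rw [map_add]; ring
  rw [e]
  exact hf.add hg

theorem val_const (c : k) : Ge P 1 (algebraMap k K c - algebraMap k K c) := by
  rw [sub_self]; exact Ge.zero

theorem val_sub {f g : K} {c d : k} (hf : Ge P 1 (f - algebraMap k K c))
    (hg : Ge P 1 (g - algebraMap k K d)) : Ge P 1 (f - g - algebraMap k K (c - d)) := by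
  have e : f - g - algebraMap k K (c - d) =
      (f - algebraMap k K c) - (g - algebraMap k K d) := by
    rw [map_sub]; ring
  rw [e]
  exact hf.sub hg

theorem val_unique {f : K} {c d : k} (hf : Ge P 1 (f - algebraMap k K c))
    (hg : Ge P 1 (f - algebraMap k K d)) : c = d := by
  have h := hg.sub hf
  have e : f - algebraMap k K d - (f - algebraMap k K c) = algebraMap k K (c - d) := by
    rw [map_sub]; ring
  rw [e] at h
  exact sub_eq_zero.1 (const_zero h)

/-- the quotient of `f(x) - f(a)` by `x - a` -/
def qq (lam a : k) (x : K) : K :=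
  x ^ 2 + algebraMap k K a * x + algebraMap k K (a ^ 2) -
    algebraMap k K (1 + lam) * (x + algebraMap k K a) + algebraMap k K lam

theorem cub_sub (lam a : k) (x : K) :
    x * (x - 1) * (x - algebraMap k K lam) - algebraMap k K (a * (a - 1) * (a - lam)) =
      (x - algebraMap k K a) * qq lam a x := by
  unfold qq
  simp only [map_mul, map_sub, map_add, map_one, map_pow]
  ring

theorem ge_q (a : k) (hx : Ge P 0 x) : Ge P 0 (qq lam a x) := by
  unfold qq
  have h1 : Ge P 0 (x ^ 2) := by simpa using hx.pow 2
  have h2 : Ge P 0 (algebraMap k K a * x) := by simpa using (Ge.const a).mul hx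
  have h3 : Ge P 0 (algebraMap k K (1 + lam) * (x + algebraMap k K a)) := by
    simpa using (Ge.const (1 + lam)).mul (hx.add (Ge.const a))
  exact (((h1.add h2).add (Ge.const _)).sub h3).add (Ge.const _)

theorem val_cub {a : k} (h : Ell k K lam x y) (hx : Ge P 1 (x - algebraMap k K a)) :
    Ge P 1 (y ^ 2 - algebraMap k K (a * (a - 1) * (a - lam))) := by
  rw [h.eqn, cub_sub]
  simpa using hx.mul (ge_q (lam := lam) a (ge_of_val hx))

/-- the values of `x`, `y` satisfy the equation -/
theorem val_eqn {a b : k} (h : Ell k K lam x y) (hx : Ge P 1 (x - algebraMap k K a))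
    (hy : Ge P 1 (y - algebraMap k K b)) : b ^ 2 = a * (a - 1) * (a - lam) := by
  have h1 := val_cub h hx
  have h2 := val_mul hy hy
  rw [← pow_two, ← pow_two] at h2
  exact val_unique h2 h1

theorem x_sub_ne (h : Ell k K lam x y) (a : k) : x - algebraMap k K a ≠ 0 := by
  intro h0
  have htr := h.tr
  rw [sub_eq_zero.1 h0] at htr
  exact htr (isAlgebraic_algebraMap a)

theorem x_sub_tr (h : Ell k K lam x y) (a : k) : Transcendental k (x - algebraMap k K a) := by
  intro h0
  apply h.tr
  have h1 := h0.add (isAlgebraic_algebraMap (A := K) a)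
  rwa [sub_add_cancel] at h1

end

section
variable {k K : Type} [Field k] [Field K] [Algebra k K] [CharZero k] [IsAlgClosed k] [IsFF k K]
  {lam : k} {x y : K}

theorem exists_val (h : Ell k K lam x y) (P : Place k K) (hx : Ge P 0 x) :
    ∃ a b : k, b ^ 2 = a * (a - 1) * (a - lam) ∧
      Ge P 1 (x - algebraMap k K a) ∧ Ge P 1 (y - algebraMap k K b) := by
  obtain ⟨a, ha⟩ := Pool.Agent.W603.LV.exists_const P hx
  obtain ⟨b, hb⟩ := Pool.Agent.W603.LV.exists_const P (ge_y h P hx)
  exact ⟨a, b, val_eqn h ha hb, ha, hb⟩

/-- the zeros of `x - a` -/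
theorem zsum (h : Ell k K lam x y) {o : Place k K} (ho : o.ord x = -2)
    (hP : ∀ P, P ≠ o → Ge P 0 x) (a : k) :
    ∃ S : Finset (Place k K), (∀ w, w ∈ S ↔ 0 < w.ord (x - algebraMap k K a)) ∧
      ∑ w ∈ S, (w.ord (x - algebraMap k K a)).toNat = 2 := by
  obtain ⟨S, hS, -, h1⟩ := zeros (k := k) (K := K) (x_sub_tr h a)
  obtain ⟨S', hS', h2⟩ := poles (k := k) (K := K) (x_sub_tr h a)
  refine ⟨S, hS, ?_⟩
  have e1 : ∑ w ∈ S, (w.ord (x - algebraMap k K a)).toNat =
      Module.finrank k⟮x - algebraMap k K a⟯ K := by
    rw [← h1]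
    exact Finset.sum_congr rfl fun w _ => by rw [deg_one, mul_one]
  have hoo := ord_sub_const o (x := x) (by omega) a
  have e2 : S' = {o} := by
    ext w
    rw [hS', Finset.mem_singleton]
    constructor
    · intro hw
      by_contra hne
      have h3 : Ge w 0 (x - algebraMap k K a) := (hP w hne).sub (Ge.const a)
      have h4 := h3.resolve_left (x_sub_ne h a)
      omega
    · rintro rfl
      rw [hoo.2]
      omega
  rw [e1, ← h2, e2, Finset.sum_singleton, deg_one, hoo.2, ho]
  rfl

/-- a place is a zero of `x - a` if and only if the value of `x` is `a` -/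
theorem mem_zero_iff (h : Ell k K lam x y) (P : Place k K) (a : k) :
    Ge P 1 (x - algebraMap k K a) ↔ 0 < P.ord (x - algebraMap k K a) := by
  constructor
  · intro h1
    have := h1.resolve_left (x_sub_ne h a)
    omega
  · intro h1
    exact Or.inr (by omega)

/-- over a point with nonzero `y`-coordinate there is a place -/
theorem exists_place (hNo : StmNo1) (h : Ell k K lam x y) {o : Place k K} (ho : o.ord x = -2)
    (hoy : o.ord y = -3) (hP : ∀ P, P ≠ o → Ge P 0 x) {a b : k}
    (hab : b ^ 2 = a * (a - 1) * (a - lam)) (hb : b ≠ 0) :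
    ∃ P : Place k K, Ge P 1 (x - algebraMap k K a) ∧ Ge P 1 (y - algebraMap k K b) := by
  by_contra hc
  push Not at hc
  have hxa := x_sub_ne h a
  have hoo := ord_sub_const o (x := x) (by omega) a
  have hoy' := ord_sub_const o (x := y) (by omega) (-b)
  rw [map_neg, sub_neg_eq_add] at hoy'
  have hid : (y + algebraMap k K b) * (y - algebraMap k K b) =
      (x - algebraMap k K a) * qq lam a x := by
    rw [← cub_sub, ← h.eqn, ← hab, map_pow]
    ring
  refine hNo k K lam x y h ((y + algebraMap k K b) / (x - algebraMap k K a)) o ?_ ?_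
  · rw [o.ord_div hoy'.1 hxa, hoy'.2, hoo.2, ho, hoy]
    norm_num
  · intro P hPo
    have hx0 := hP P hPo
    have hy0 := ge_y h P hx0
    by_cases hz : Ge P 1 (x - algebraMap k K a)
    · have hny := hc P hz
      obtain ⟨b', hb'⟩ := Pool.Agent.W603.LV.exists_const P hy0
      have he := val_eqn h hz hb'
      have hbb : (b' - b) * (b' + b) = 0 := by linear_combination he - hab
      rcases mul_eq_zero.1 hbb with h1 | h1
      · exact absurd (sub_eq_zero.1 h1 ▸ hb') hny
      · have hb'' : b' = -b := by linear_combination h1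
        rw [hb''] at hb'
        have hu : Ge P 1 (y - algebraMap k K b - algebraMap k K (-b - b)) :=
          val_sub hb' (val_const b)
        have h2b : -b - b ≠ 0 := by
          intro h2
          apply hb
          have h3 : (2 : k) * b = 0 := by linear_combination -h2
          exact (mul_eq_zero.1 h3).resolve_left two_ne_zero
        obtain ⟨u1, u2⟩ := unit_of h2b hu
        refine Ge.of_mul' u1 u2 ?_
        have e : (y - algebraMap k K b) *
            ((y + algebraMap k K b) / (x - algebraMap k K a)) = qq lam a x := by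
          rw [mul_div_assoc', mul_comm (y - algebraMap k K b), hid, mul_div_assoc,
            mul_div_cancel₀ _ hxa]
        rw [e]
        simpa using ge_q (lam := lam) a hx0
    · have hord : P.ord (x - algebraMap k K a) = 0 := by
        rcases (hx0.sub (Ge.const (P := P) a)) with h1 | h1
        · exact absurd h1 hxa
        · have h2 : ¬ 0 < P.ord (x - algebraMap k K a) := fun h3 =>
            hz ((mem_zero_iff h P a).2 h3)
          omega
      refine Ge.of_mul' hxa hord ?_
      rw [mul_div_cancel₀ _ hxa]
      simpa using hy0.add (Ge.const b)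

/-- the orders at a place over a point of order two -/
theorem ord_two (h : Ell k K lam x y) (P : Place k K) {a : k} (ha : a * (a - 1) * (a - lam) = 0)
    (hx : Ge P 1 (x - algebraMap k K a)) : 2 * P.ord y = P.ord (x - algebraMap k K a) := by
  have h0 := x_sub_ne h (0 : k)
  have h1 := x_sub_ne h (1 : k)
  have h2 := x_sub_ne h lam
  have hy : 2 * P.ord y = P.ord (x - algebraMap k K 0) + P.ord (x - algebraMap k K 1) +
      P.ord (x - algebraMap k K lam) := by
    have e : P.ord (y ^ 2) = P.ord ((x - algebraMap k K 0) * (x - algebraMap k K 1) *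
        (x - algebraMap k K lam)) := by
      rw [h.eqn, map_zero, map_one, sub_zero]
    rw [P.ord_pow, P.ord_mul (mul_ne_zero h0 h1) h2, P.ord_mul h0 h1] at e
    push_cast at e
    rw [map_zero, map_one]
    exact e
  have key : ∀ c : k, a ≠ c → P.ord (x - algebraMap k K c) = 0 := fun c hc =>
    (unit_of (sub_ne_zero.2 hc) (val_sub hx (val_const c))).2
  have hl0 := h.lam0
  have hl1 := h.lam1
  rcases mul_eq_zero.1 ha with h3 | h3
  · rcases mul_eq_zero.1 h3 with h4 | h4
    · subst h4
      rw [key 1 (by simp), key lam hl0.symm] at hy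
      rw [hy]; ring
    · have h5 := sub_eq_zero.1 h4
      subst h5
      rw [key 0 (by simp), key lam hl1.symm] at hy
      rw [hy]; ring
  · have h5 := sub_eq_zero.1 h3
    subst h5
    rw [key 0 hl0, key 1 hl1] at hy
    rw [hy]; ring

end

theorem stmPts : StmInf → StmNo1 → StmPts := by
  classical
  intro hInf hNo k K _ _ _ _ _ _ lam x y h
  obtain ⟨o, ho, hoy, hreg⟩ := hInf k K lam x y h
  have hP : ∀ P, P ≠ o → Ge P 0 x := fun P hne => (hreg P hne).1
  refine ⟨fun P hx => exists_val h P hx, ?_, ?_⟩
  · intro a b hab
    by_cases hb : b = 0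
    · obtain ⟨S, hS, hsum⟩ := zsum h ho hP a
      have hne : S.Nonempty := by
        rw [Finset.nonempty_iff_ne_empty]
        intro he
        rw [he, Finset.sum_empty] at hsum
        omega
      obtain ⟨P, hPS⟩ := hne
      have hx := (mem_zero_iff h P a).2 ((hS P).1 hPS)
      refine ⟨P, hx, ?_⟩
      rw [hb, map_zero, sub_zero]
      have h1 := ord_two h P (by rw [← hab, hb]; ring) hx
      have h2 := (hS P).1 hPS
      exact Or.inr (by omega)
    · exact exists_place hNo h ho hoy hP hab hb
  · intro a b P hx hy
    have hab := val_eqn h hx hy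
    obtain ⟨S, hS, hsum⟩ := zsum h ho hP a
    have hmem : ∀ Q : Place k K, Ge Q 1 (x - algebraMap k K a) → Q ∈ S := fun Q hQ =>
      (hS Q).2 ((mem_zero_iff h Q a).1 hQ)
    have hone : ∀ Q ∈ S, 1 ≤ (Q.ord (x - algebraMap k K a)).toNat := by
      intro Q hQ
      have := (hS Q).1 hQ
      omega
    by_cases hb : b = 0
    · have ha0 : a * (a - 1) * (a - lam) = 0 := by rw [← hab, hb]; ring
      have htwo : ∀ Q ∈ S, 2 ≤ (Q.ord (x - algebraMap k K a)).toNat := by
        intro Q hQ
        have h1 := (hS Q).1 hQ
        have h2 := ord_two h Q ha0 ((mem_zero_iff h Q a).2 h1)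
        omega
      have h2 := htwo P (hmem P hx)
      have h1 := (hS P).1 (hmem P hx)
      have hle : (P.ord (x - algebraMap k K a)).toNat ≤ 2 := by
        rw [← hsum]
        exact Finset.single_le_sum
          (f := fun w : Place k K => (w.ord (x - algebraMap k K a)).toNat)
          (fun _ _ => Nat.zero_le _) (hmem P hx)
      have h3 := ord_two h P ha0 hx
      refine ⟨?_, fun hb' => absurd hb hb', fun _ => ⟨by omega, by omega⟩⟩
      intro P' hx' hy'
      by_contra hne
      have h4 := htwo P' (hmem P' hx')
      have h5 : ∑ w ∈ {P', P}, (w.ord (x - algebraMap k K a)).toNat ≤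
          ∑ w ∈ S, (w.ord (x - algebraMap k K a)).toNat := by
        apply Finset.sum_le_sum_of_subset
        intro w hw
        rw [Finset.mem_insert, Finset.mem_singleton] at hw
        rcases hw with rfl | rfl
        · exact hmem _ hx'
        · exact hmem _ hx
      rw [Finset.sum_pair hne, hsum] at h5
      omega
    · obtain ⟨N, hNx, hNy⟩ := exists_place hNo h ho hoy hP (a := a) (b := -b)
        (by rw [neg_sq]; exact hab) (neg_ne_zero.2 hb)
      have hbb : b ≠ -b := by
        intro h1
        apply hb
        have h3 : (2 : k) * b = 0 := by linear_combination h1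
        exact (mul_eq_zero.1 h3).resolve_left two_ne_zero
      have hN : ∀ Q : Place k K, Ge Q 1 (y - algebraMap k K b) → Q ≠ N := by
        rintro Q hQ rfl
        exact hbb (val_unique hQ hNy)
      have hNS := hone N (hmem N hNx)
      have hPS := hone P (hmem P hx)
      have h5 : ∑ w ∈ {P, N}, (w.ord (x - algebraMap k K a)).toNat ≤
          ∑ w ∈ S, (w.ord (x - algebraMap k K a)).toNat := by
        apply Finset.sum_le_sum_of_subset
        intro w hw
        rw [Finset.mem_insert, Finset.mem_singleton] at hw
        rcases hw with rfl | rfl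
        · exact hmem _ hx
        · exact hmem _ hNx
      rw [Finset.sum_pair (hN P hy), hsum] at h5
      have h1 := (hS P).1 (hmem P hx)
      refine ⟨?_, fun _ => by omega, fun hb' => absurd hb' hb⟩
      intro P' hx' hy'
      by_contra hne
      have hPS' := hone P' (hmem P' hx')
      have h6 : ∑ w ∈ {P', P, N}, (w.ord (x - algebraMap k K a)).toNat ≤
          ∑ w ∈ S, (w.ord (x - algebraMap k K a)).toNat := by
        apply Finset.sum_le_sum_of_subset
        intro w hw
        rw [Finset.mem_insert, Finset.mem_insert, Finset.mem_singleton] at hw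
        rcases hw with rfl | rfl | rfl
        · exact hmem _ hx'
        · exact hmem _ hx
        · exact hmem _ hNx
      rw [Finset.sum_insert (by
        rw [Finset.mem_insert, Finset.mem_singleton]
        rintro (h7 | h7)
        · exact hne h7
        · exact hN P' hy' h7), Finset.sum_pair (hN P hy), hsum] at h6
      omega

end Pool.Agent.Y43.DP
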