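import Pool.Agent.Y166.DP.Stm

/-! The quartic form on a tangent line: DP-TAN. -/

set_option autoImplicit false
set_option linter.unusedSectionVars false

namespace Pool.Agent.Y43.DP

open Pool.Agent.Y166.DP FF Pool.Agent.W603.LV

/-- the identity of polynomials behind `StmTan` -/
theorem quart_id {F : Type} [Field F] [CharZero F] (τ a ω s t : F) (ha : a ^ 4 = -(1 + τ ^ 4))
    (hω : ω ^ 2 = -2 * (τ ^ 8 + τ ^ 4 + 1)) (h0 : τ ≠ 0) :
    (s + τ ^ 3 * t) ^ 4 + (τ * s - t) ^ 4 + (a * s) ^ 4 =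
      6 * τ ^ 2 * (1 + τ ^ 4) * t ^ 2 * (s - (-2 * (τ ^ 4 - 1) + ω) / (6 * τ) * t) *
        (s - (-2 * (τ ^ 4 - 1) - ω) / (6 * τ) * t) := by
  have h6 : (6 : F) * τ ≠ 0 := mul_ne_zero (by norm_num) h0
  have e1 : (s - (-2 * (τ ^ 4 - 1) + ω) / (6 * τ) * t) *
      (s - (-2 * (τ ^ 4 - 1) - ω) / (6 * τ) * t) =
      ((6 * τ * s + 2 * (τ ^ 4 - 1) * t) ^ 2 - ω ^ 2 * t ^ 2) / (6 * τ) ^ 2 := by
    field_simp
    ring
  rw [mul_assoc (6 * τ ^ 2 * (1 + τ ^ 4) * t ^ 2), e1, hω, mul_pow a s 4, ha]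
  field_simp
  ring

section
variable {k K : Type} [Field k] [Field K] [Algebra k K] [CharZero k]

/-- the functions `gg` are combinations of the functions `u` -/
theorem gg_comb (τ a ω : k) (u : Fin 2 → K) (j : Fin 3) :
    ∃ b : Fin 2 → k, gg τ a ω u j = ∑ᶠ i, algebraMap k K (b i) * u i := by
  set c : k := 3 * τ / ω with hc
  set ρ : k := (-2 * (τ ^ 4 - 1) + ω) / (6 * τ) with hρ
  have e : gg τ a ω u = ![(u 0 + algebraMap k K ρ * ((u 1 - u 0) * algebraMap k K c)) +
      algebraMap k K (τ ^ 3) * ((u 1 - u 0) * algebraMap k K c),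
      algebraMap k K τ * (u 0 + algebraMap k K ρ * ((u 1 - u 0) * algebraMap k K c)) -
        (u 1 - u 0) * algebraMap k K c,
      algebraMap k K a * (u 0 + algebraMap k K ρ * ((u 1 - u 0) * algebraMap k K c))] := rfl
  rw [e]
  fin_cases j
  · refine ⟨![(1 - ρ * c) - τ ^ 3 * c, ρ * c + τ ^ 3 * c], ?_⟩
    rw [finsum_eq_sum_of_fintype, Fin.sum_univ_two]
    simp only [Fin.zero_eta, Matrix.cons_val_zero, Matrix.cons_val_one, map_sub, map_add, map_mul,
      map_one, map_pow]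
    ring
  · refine ⟨![τ * (1 - ρ * c) + c, τ * (ρ * c) - c], ?_⟩
    rw [finsum_eq_sum_of_fintype, Fin.sum_univ_two]
    simp only [Fin.mk_one, Matrix.cons_val_zero, Matrix.cons_val_one, map_sub, map_add, map_mul,
      map_one, map_pow]
    ring
  · refine ⟨![a * (1 - ρ * c), a * (ρ * c)], ?_⟩
    rw [finsum_eq_sum_of_fintype, Fin.sum_univ_two]
    simp only [Fin.reduceFinMk, Matrix.cons_val_zero, Matrix.cons_val_one, Matrix.cons_val, map_sub,
      map_add, map_mul, map_one, map_pow]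
    ring

/-- the functions `u` are combinations of the functions `gg` -/
theorem u_comb {τ a ω : k} (hτ : τ ≠ 0) (hω : ω ≠ 0) (ha : a ≠ 0) (u : Fin 2 → K) (j : Fin 2) :
    ∃ b : Fin 3 → k, u j = ∑ᶠ i, algebraMap k K (b i) * gg τ a ω u i := by
  haveI : CharZero K := charZero_of_injective_algebraMap (algebraMap k K).injective
  have hτ' : algebraMap k K τ ≠ 0 := (map_ne_zero _).2 hτ
  have hω' : algebraMap k K ω ≠ 0 := (map_ne_zero _).2 hω
  have ha' : algebraMap k K a ≠ 0 := (map_ne_zero _).2 ha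
  set ρ : k := (-2 * (τ ^ 4 - 1) + ω) / (6 * τ) with hρ
  have e0 : gg τ a ω u 0 = (u 0 + algebraMap k K ρ * ((u 1 - u 0) * algebraMap k K (3 * τ / ω))) +
      algebraMap k K (τ ^ 3) * ((u 1 - u 0) * algebraMap k K (3 * τ / ω)) := rfl
  have e1 : gg τ a ω u 1 =
      algebraMap k K τ * (u 0 + algebraMap k K ρ * ((u 1 - u 0) * algebraMap k K (3 * τ / ω))) -
        (u 1 - u 0) * algebraMap k K (3 * τ / ω) := rfl
  have e2 : gg τ a ω u 2 =
      algebraMap k K a * (u 0 + algebraMap k K ρ * ((u 1 - u 0) * algebraMap k K (3 * τ / ω))) := rfl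
  fin_cases j
  · refine ⟨![0, ρ, 1 / a - ρ * (τ / a)], ?_⟩
    rw [finsum_eq_sum_of_fintype, Fin.sum_univ_three, e0, e1, e2]
    simp only [Fin.zero_eta, Matrix.cons_val_zero, Matrix.cons_val_one, Matrix.cons_val, map_sub,
      map_add, map_mul, map_one, map_pow, map_div₀, map_zero, map_ofNat]
    generalize algebraMap k K ρ = r
    field_simp
    ring
  · refine ⟨![0, ρ - ω / (3 * τ), 1 / a - ρ * (τ / a) + ω / (3 * τ) * (τ / a)], ?_⟩
    rw [finsum_eq_sum_of_fintype, Fin.sum_univ_three, e0, e1, e2]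
    simp only [Fin.mk_one, Matrix.cons_val_zero, Matrix.cons_val_one, Matrix.cons_val, map_sub,
      map_add, map_mul, map_one, map_pow, map_div₀, map_zero, map_ofNat]
    generalize algebraMap k K ρ = r
    field_simp
    ring

theorem gg_zero (τ a ω : k) : gg τ a ω (0 : Fin 2 → K) = 0 := by
  funext j
  obtain ⟨b, hb⟩ := gg_comb τ a ω (0 : Fin 2 → K) j
  rw [hb]
  simp

theorem gg_ne_zero {τ a ω : k} (hτ : τ ≠ 0) (hω : ω ≠ 0) (ha : a ≠ 0) {u : Fin 2 → K}
    (hu : u ≠ 0) : gg τ a ω u ≠ 0 := by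
  intro h
  apply hu
  funext j
  obtain ⟨b, hb⟩ := u_comb hτ hω ha u j
  rw [hb, h]
  simp

end

theorem stmTan : StmTan := by
  intro k K _ _ _ _ _ _ τ a ω ha hω hτ hω0 ha0 u
  haveI : CharZero K := charZero_of_injective_algebraMap (algebraMap k K).injective
  constructor
  · have hτ' : algebraMap k K τ ≠ 0 := (map_ne_zero _).2 hτ
    have hω' : algebraMap k K ω ≠ 0 := (map_ne_zero _).2 hω0
    have ha1 : algebraMap k K a ^ 4 = -(1 + algebraMap k K τ ^ 4) := by
      rw [← map_pow, ha, map_neg, map_add, map_one, map_pow]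
    have hω1 : algebraMap k K ω ^ 2 =
        -2 * (algebraMap k K τ ^ 8 + algebraMap k K τ ^ 4 + 1) := by
      rw [← map_pow, hω, map_mul, map_add, map_add, map_one, map_pow, map_pow, map_neg, map_ofNat]
    set t : K := (u 1 - u 0) * algebraMap k K (3 * τ / ω) with ht
    set s : K := u 0 + algebraMap k K ((-2 * (τ ^ 4 - 1) + ω) / (6 * τ)) * t with hs
    have e : quart (gg τ a ω u) = (s + algebraMap k K (τ ^ 3) * t) ^ 4 +
        (algebraMap k K τ * s - t) ^ 4 + (algebraMap k K a * s) ^ 4 := rfl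
    rw [e, map_pow, quart_id _ _ _ s t ha1 hω1 hτ']
    have h1 : s - (-2 * (algebraMap k K τ ^ 4 - 1) + algebraMap k K ω) /
        (6 * algebraMap k K τ) * t = u 0 := by
      rw [hs]
      simp only [map_sub, map_add, map_mul, map_one, map_pow, map_div₀, map_neg, map_ofNat]
      ring
    have h2 : s - (-2 * (algebraMap k K τ ^ 4 - 1) - algebraMap k K ω) /
        (6 * algebraMap k K τ) * t = u 1 := by
      rw [hs, ht]
      simp only [map_sub, map_add, map_mul, map_one, map_pow, map_div₀, map_neg, map_ofNat]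
      field_simp
      ring
    rw [h1, h2]
    simp only [map_add, map_mul, map_one, map_pow, map_ofNat]
  · by_cases hu : u = 0
    · rw [hu, gg_zero]
      unfold ht
      simp only [mo_zero]
    · exact le_antisymm (ht_le_of_comb (gg_ne_zero hτ hω0 ha0 hu) (gg_comb τ a ω u))
        (ht_le_of_comb hu (u_comb hτ hω0 ha0 u))

end Pool.Agent.Y43.DP
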